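import Mathlib

set_option autoImplicit false

namespace Pool.Agent.helper44.IPT

/-- A Boolean-valued ultrafilter on the natural numbers. -/
@[ext]
structure BU (B : Type*) [CompleteBooleanAlgebra B] where
  f : (ℕ → B) → B
  inf' : ∀ A A' : ℕ → B, f (A ⊓ A') = f A ⊓ f A'
  compl' : ∀ A : ℕ → B, f Aᶜ = (f A)ᶜ
  const' : ∀ b : B, f (fun _ => b) = b

variable {B : Type*} [CompleteBooleanAlgebra B]

/-- The closed set given by a set of constraints. -/
def Cl (F : Set (ℕ → B)) : Set (BU B) := {p | ∀ A ∈ F, p.f A = ⊤}

/-- product of Boolean-valued ultrafilters -/
instance : Mul (BU B) where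
  mul p q :=
    { f := fun A => p.f (fun s => q.f (fun t => A (s + t)))
      inf' := by
        intro A A'
        have : (fun s => q.f (fun t => (A ⊓ A') (s + t)))
            = (fun s => q.f (fun t => A (s + t))) ⊓ (fun s => q.f (fun t => A' (s + t))) := by
          funext s
          exact q.inf' (fun t => A (s + t)) (fun t => A' (s + t))
        rw [this, p.inf']
      compl' := by
        intro A
        have : (fun s => q.f (fun t => Aᶜ (s + t)))
            = (fun s => q.f (fun t => A (s + t)))ᶜ := by
          funext s
          exact q.compl' (fun t => A (s + t))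
        rw [this, p.compl']
      const' := by
        intro b
        simp only [q.const', p.const'] }

theorem BU.mul_f (p q : BU B) (A : ℕ → B) :
    (p * q).f A = p.f (fun s => q.f (fun t => A (s + t))) := rfl

instance : Semigroup (BU B) where
  mul_assoc p q r := by
    apply BU.ext
    funext A
    simp only [BU.mul_f, add_assoc]

/-- a literal -/
def lit (b : B) (v : Bool) : B := if v then b else bᶜ

/-- truth value as element of B -/
def tv (P : Prop) [Decidable P] : B := if P then ⊤ else ⊥

end Pool.Agent.helper44.IPT
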