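import Pool.Agent.helper44.IPT.Defs

set_option autoImplicit false

open Filter

namespace Pool.Agent.helper44.IPT

/-- `q` is an idempotent ultrafilter on the positive integers -/
structure Idem (q : Ultrafilter ℕ) : Prop where
  add : ∀ P : ℕ → Prop, (∀ᶠ t in (q : Filter ℕ), P t) ↔
    ∀ᶠ s in (q : Filter ℕ), ∀ᶠ t in (q : Filter ℕ), P (s + t)
  big : ∀ N, ∀ᶠ t in (q : Filter ℕ), N < t

theorem FS_ones_pos (a : Stream' ℕ) (m : ℕ) (h : Hindman.FS a m) :
    (∀ n, a.get n = 1) → 0 < m := by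
  induction h with
  | head' a => intro ha; have := ha 0; simp only [Stream'.head]; omega
  | tail' a m h ih =>
    intro ha
    exact ih (fun n => by simpa [Stream'.tail_eq_drop, Stream'.get_drop] using ha (1 + n))
  | cons' a m h ih =>
    intro ha
    have := ih (fun n => by simpa [Stream'.tail_eq_drop, Stream'.get_drop] using ha (1 + n))
    omega

theorem exists_idem : ∃ q : Ultrafilter ℕ, Idem q := by
  obtain ⟨q, hq, hq2⟩ := Hindman.exists_idempotent_ultrafilter_le_FS (Stream'.const 1 : Stream' ℕ)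
  have hadd : ∀ P : ℕ → Prop, (∀ᶠ t in (q : Filter ℕ), P t) ↔
      ∀ᶠ s in (q : Filter ℕ), ∀ᶠ t in (q : Filter ℕ), P (s + t) := by
    intro P
    conv_lhs => rw [← hq]
    exact Ultrafilter.eventually_add q q P
  have hpos : ∀ᶠ t in (q : Filter ℕ), 0 < t := by
    filter_upwards [hq2] with m hm
    exact FS_ones_pos _ m hm (fun n => rfl)
  refine ⟨q, hadd, ?_⟩
  intro N
  have key : ∀ m, ∀ᶠ t in (q : Filter ℕ), t ≠ m := by
    intro m
    rw [Ultrafilter.eventually_not]
    intro hm
    have h2 := (hadd _).1 hm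
    have h3 : ∀ᶠ s in (q : Filter ℕ), False := by
      filter_upwards [hm, h2] with s hs1 hs2
      have h4 : ∀ᶠ t in (q : Filter ℕ), False := by
        filter_upwards [hs2, hpos] with t ht1 ht2
        omega
      obtain ⟨_, h5⟩ := h4.exists
      exact h5
    obtain ⟨_, h5⟩ := h3.exists
    exact h5
  induction N with
  | zero => exact hpos
  | succ N ih =>
    filter_upwards [ih, key (N + 1)] with t h1 h2
    omega

variable (q : Ultrafilter ℕ)

/-- non-constant modulo `q` -/
def NCon (X : ℕ → ℕ) : Prop := ∀ v, ∀ᶠ t in (q : Filter ℕ), X t ≠ v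

/-- `true` : left pointers, `false` : right pointers -/
def SideP (s : Bool) (X : ℕ → ℕ) : Prop :=
  NCon q X ∧ (s = true ↔ ∀ᶠ s in (q : Filter ℕ), ∀ᶠ t in (q : Filter ℕ), X (s + t) = X s)

theorem NCon.large {q : Ultrafilter ℕ} {X : ℕ → ℕ} (h : NCon q X) (N : ℕ) :
    ∀ᶠ t in (q : Filter ℕ), N < X t := by
  induction N with
  | zero =>
    filter_upwards [h 0] with t ht
    omega
  | succ N ih =>
    filter_upwards [ih, h (N + 1)] with t h1 h2
    omega

theorem not_ncon {q : Ultrafilter ℕ} {X : ℕ → ℕ} (h : ¬ NCon q X) :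
    ∃ v, ∀ᶠ t in (q : Filter ℕ), X t = v := by
  simp only [NCon, not_forall] at h
  obtain ⟨v, hv⟩ := h
  refine ⟨v, ?_⟩
  rw [Ultrafilter.eventually_not] at hv
  simpa using hv

theorem right_shift {q : Ultrafilter ℕ} (hq : Idem q) {X : ℕ → ℕ} (h : SideP q false X) :
    ∀ᶠ s in (q : Filter ℕ), SideP q false (fun t => X (s + t)) := by
  have h0 : ¬ ∀ᶠ s in (q : Filter ℕ), ∀ᶠ t in (q : Filter ℕ), X (s + t) = X s := by
    intro h1
    have := h.2.2 h1
    simp at this
  -- (1)
  have h1 : ∀ᶠ s in (q : Filter ℕ), NCon q (fun t => X (s + t)) := by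
    by_contra hc
    rw [← Ultrafilter.eventually_not] at hc
    have hc' : ∀ᶠ s in (q : Filter ℕ), ∃ v, ∀ᶠ t in (q : Filter ℕ), X (s + t) = v := by
      filter_upwards [hc] with s hs
      exact not_ncon hs
    classical
    let g : ℕ → ℕ := fun s =>
      if h : ∃ v, ∀ᶠ t in (q : Filter ℕ), X (s + t) = v then h.choose else 0
    have hg : ∀ᶠ s in (q : Filter ℕ), ∀ᶠ t in (q : Filter ℕ), X (s + t) = g s := by
      filter_upwards [hc'] with s hs
      have : g s = hs.choose := by simp only [g]; rw [dif_pos hs]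
      rw [this]
      exact hs.choose_spec
    have h3 := (hq.add _).1 hg
    -- g (s+s') = g s
    have h4 : ∀ᶠ s in (q : Filter ℕ), ∀ᶠ s' in (q : Filter ℕ), g (s + s') = g s := by
      filter_upwards [hg, h3] with s hs1 hs2
      have hs3 := (hq.add _).1 hs1
      filter_upwards [hs2, hs3] with s' h5 h6
      have : ∀ᶠ t in (q : Filter ℕ), g (s + s') = g s := by
        filter_upwards [h5, h6] with t h7 h8
        rw [← h7, ← h8, add_assoc]
      exact this.exists.choose_spec
    have h5 : ∀ᶠ r in (q : Filter ℕ), X r = g r := by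
      rw [hq.add]
      filter_upwards [hg, h4] with s h6 h7
      filter_upwards [h6, h7] with s' h8 h9
      rw [h8, h9]
    apply h0
    filter_upwards [hg, h5] with s h6 h7
    filter_upwards [h6] with t h8
    rw [h8, h7]
  have h2 : ∀ᶠ s in (q : Filter ℕ), ¬ ∀ᶠ s' in (q : Filter ℕ), ∀ᶠ t in (q : Filter ℕ),
      X (s + (s' + t)) = X (s + s') := by
    rw [Ultrafilter.eventually_not]
    intro hc
    apply h0
    rw [hq.add]
    filter_upwards [hc] with s hs
    filter_upwards [hs] with s' hs'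
    filter_upwards [hs'] with t ht
    rw [add_assoc]
    exact ht
  filter_upwards [h1, h2] with s h3 h4
  exact ⟨h3, by simpa using h4⟩

theorem exists_side {q : Ultrafilter ℕ} {X : ℕ → ℕ} (h : NCon q X) : ∃ s, SideP q s X := by
  by_cases h1 : ∀ᶠ s in (q : Filter ℕ), ∀ᶠ t in (q : Filter ℕ), X (s + t) = X s
  · exact ⟨true, h, by simpa using h1⟩
  · exact ⟨false, h, by simpa using h1⟩

/-- bars -/
inductive Bar (S : Set (Set ℕ)) (N : List ℕ → Prop) : List ℕ → Prop
  | now {τ : List ℕ} : N τ → Bar S N τ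
  | step {τ : List ℕ} (A : Set ℕ) (hA : A ∈ S) (h : ∀ t ∈ A, Bar S N (t :: τ)) : Bar S N τ

theorem Bar.mono_set {S S' : Set (Set ℕ)} (hS : S ⊆ S') {N : List ℕ → Prop} {τ : List ℕ}
    (h : Bar S N τ) : Bar S' N τ := by
  induction h with
  | now h => exact Bar.now h
  | step A hA _ ih => exact Bar.step A (hS hA) ih

theorem Bar.mono_pred {S : Set (Set ℕ)} {N N' : List ℕ → Prop} (hN : ∀ τ, N τ → N' τ)
    {τ : List ℕ} (h : Bar S N τ) : Bar S N' τ := by
  induction h with
  | now h => exact Bar.now (hN _ h)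
  | step A hA _ ih => exact Bar.step A hA ih

theorem Bar.countable {S : Set (Set ℕ)} {N : List ℕ → Prop} {τ : List ℕ}
    (h : Bar S N τ) : ∃ S' : Set (Set ℕ), S'.Countable ∧ S' ⊆ S ∧ Bar S' N τ := by
  induction h with
  | now h => exact ⟨∅, Set.countable_empty, Set.empty_subset _, Bar.now h⟩
  | @step τ A hA _ ih =>
    classical
    choose! T hT1 hT2 hT3 using ih
    refine ⟨{A} ∪ ⋃ t ∈ A, T t, ?_, ?_, ?_⟩
    · refine (Set.countable_singleton A).union ?_
      refine Set.Countable.biUnion (Set.to_countable A) ?_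
      intro t ht
      exact hT1 t ht
    · intro x hx
      rcases hx with hx | hx
      · rw [Set.mem_singleton_iff] at hx; rw [hx]; exact hA
      · simp only [Set.mem_iUnion] at hx
        obtain ⟨t, ht, hx⟩ := hx
        exact hT2 t ht hx
    · refine Bar.step A (Or.inl rfl) ?_
      intro t ht
      refine (hT3 t ht).mono_set ?_
      intro x hx
      refine Or.inr ?_
      simp only [Set.mem_iUnion]
      exact ⟨t, ht, hx⟩

/-- bars for `q` -/
abbrev QBar (N : List ℕ → Prop) (τ : List ℕ) : Prop := Bar {A | A ∈ q} N τ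

theorem QBar.of_ev {q : Ultrafilter ℕ} {N : List ℕ → Prop} {τ : List ℕ}
    (h : ∀ᶠ t in (q : Filter ℕ), QBar q N (t :: τ)) : QBar q N τ :=
  Bar.step {t | QBar q N (t :: τ)} h (fun _ ht => ht)

theorem QBar.cases {q : Ultrafilter ℕ} {N : List ℕ → Prop} {τ : List ℕ}
    (h : QBar q N τ) : N τ ∨ ∀ᶠ t in (q : Filter ℕ), QBar q N (t :: τ) := by
  cases h with
  | now h => exact Or.inl h
  | step A hA h =>
    right
    exact Filter.mem_of_superset hA h

/-- functional data -/
structure Fnl where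
  Pr : List ℕ → ℕ → ℕ → Prop
  mono : ∀ τ t j x, Pr τ j x → Pr (t :: τ) j x

open Classical in
/-- the first produced element of the `j`-th set above `n` -/
noncomputable def Fnl.val (F : Fnl) (j n : ℕ) : List ℕ → Option ℕ
  | [] => if h : ∃ x, n < x ∧ F.Pr [] j x then some h.choose else none
  | t :: τ => match F.val j n τ with
    | some v => some v
    | none => if h : ∃ x, n < x ∧ F.Pr (t :: τ) j x then some h.choose else none

theorem Fnl.val_mono (F : Fnl) {j n v : ℕ} {τ : List ℕ} (h : F.val j n τ = some v) (t : ℕ) :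
    F.val j n (t :: τ) = some v := by
  simp only [Fnl.val, h]

theorem Fnl.val_spec (F : Fnl) {j n : ℕ} {τ : List ℕ} : ∀ {v : ℕ}, F.val j n τ = some v →
    n < v ∧ F.Pr τ j v := by
  classical
  induction τ with
  | nil =>
    intro v h
    simp only [Fnl.val] at h
    split_ifs at h with h1
    · rw [Option.some.injEq] at h
      rw [← h]
      exact h1.choose_spec
  | cons t τ ih =>
    intro v h
    rcases hv : F.val j n τ with _ | w
    · simp only [Fnl.val, hv] at h
      split_ifs at h with h1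
      · rw [Option.some.injEq] at h
        rw [← h]
        exact h1.choose_spec
    · rw [F.val_mono hv t, Option.some.injEq] at h
      rw [← h]
      exact ⟨(ih hv).1, F.mono _ _ _ _ (ih hv).2⟩

theorem Fnl.val_isSome (F : Fnl) {j n x : ℕ} {τ : List ℕ} (hx : n < x) (h : F.Pr τ j x) :
    ∃ v, F.val j n τ = some v := by
  classical
  cases τ with
  | nil =>
    simp only [Fnl.val]
    rw [dif_pos ⟨x, hx, h⟩]
    exact ⟨_, rfl⟩
  | cons t τ =>
    rcases hv : F.val j n τ with _ | w
    · simp only [Fnl.val, hv]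
      rw [dif_pos ⟨x, hx, h⟩]
      exact ⟨_, rfl⟩
    · exact ⟨w, F.val_mono hv t⟩

/-- productive -/
def PD (F : Fnl) (j n : ℕ) (τ : List ℕ) : Prop := QBar q (fun σ => ∃ v, F.val j n σ = some v) τ

/-- determined with continuation -/
def Det (F : Fnl) (j n v : ℕ) (C : List ℕ → Prop) (τ : List ℕ) : Prop :=
  QBar q (fun σ => F.val j n σ = some v ∧ C σ) τ

/-- pivot -/
def Piv (F : Fnl) (j n : ℕ) (s : Bool) (C : List ℕ → Prop) (τ : List ℕ) : Prop :=
  ∃ X : ℕ → ℕ, SideP q s X ∧ ∀ᶠ t in (q : Filter ℕ), Det q F j n (X t) C (t :: τ)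

/-- undetermined with side `s` -/
def St (F : Fnl) (j n : ℕ) (s : Bool) (C : List ℕ → Prop) (τ : List ℕ) : Prop :=
  QBar q (Piv q F j n s C) τ

variable {q}

theorem Det.weaken {F : Fnl} {j n v : ℕ} {C C' : List ℕ → Prop} (hC : ∀ σ, C σ → C' σ)
    {τ : List ℕ} (h : Det q F j n v C τ) : Det q F j n v C' τ :=
  Bar.mono_pred (fun _ h => ⟨h.1, hC _ h.2⟩) h

theorem status {F : Fnl} {j n : ℕ} {ι : Type} [Finite ι] (C : ι → List ℕ → Prop)
    (hC : ∀ σ, ∃ k, C k σ) {τ : List ℕ} (h : PD q F j n τ) :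
    (∃ v k, Det q F j n v (C k) τ) ∨ ∃ s k, St q F j n s (C k) τ := by
  induction h with
  | @now τ h =>
    obtain ⟨v, hv⟩ := h
    obtain ⟨k, hk⟩ := hC τ
    exact Or.inl ⟨v, k, Bar.now ⟨hv, hk⟩⟩
  | @step τ A hA h ih =>
    have h1 : ∀ᶠ t in (q : Filter ℕ), (∃ v k, Det q F j n v (C k) (t :: τ)) ∨
        ∃ s k, St q F j n s (C k) (t :: τ) := Filter.mem_of_superset hA ih
    rw [Ultrafilter.eventually_or] at h1
    rcases h1 with h1 | h1
    · have h2 : ∀ᶠ t in (q : Filter ℕ), ∃ k, ∃ v, Det q F j n v (C k) (t :: τ) := by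
        filter_upwards [h1] with t ht
        obtain ⟨v, k, h⟩ := ht
        exact ⟨k, v, h⟩
      rw [Ultrafilter.eventually_exists_iff] at h2
      obtain ⟨k, hk⟩ := h2
      classical
      let X : ℕ → ℕ := fun t => if h : ∃ v, Det q F j n v (C k) (t :: τ) then h.choose else 0
      have hX : ∀ᶠ t in (q : Filter ℕ), Det q F j n (X t) (C k) (t :: τ) := by
        filter_upwards [hk] with t ht
        have : X t = ht.choose := by simp only [X]; rw [dif_pos ht]
        rw [this]
        exact ht.choose_spec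
      by_cases hN : NCon q X
      · obtain ⟨s, hs⟩ := exists_side hN
        exact Or.inr ⟨s, k, Bar.now ⟨X, hs, hX⟩⟩
      · obtain ⟨v, hv⟩ := not_ncon hN
        refine Or.inl ⟨v, k, QBar.of_ev ?_⟩
        filter_upwards [hX, hv] with t h3 h4
        rw [← h4]
        exact h3
    · rw [Ultrafilter.eventually_exists_iff] at h1
      obtain ⟨s, h1⟩ := h1
      rw [Ultrafilter.eventually_exists_iff] at h1
      obtain ⟨k, h1⟩ := h1
      exact Or.inr ⟨s, k, QBar.of_ev h1⟩

theorem Det.gt {F : Fnl} {j n v : ℕ} {C : List ℕ → Prop}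
    {τ : List ℕ} (h : Det q F j n v C τ) : n < v := by
  induction h with
  | now h => exact (F.val_spec h.1).1
  | step A hA _ ih =>
    obtain ⟨t, ht⟩ := Ultrafilter.nonempty_of_mem hA
    exact ih t ht

theorem Det.persist {F : Fnl} {j n v : ℕ}
    {τ : List ℕ} (h : Det q F j n v (fun _ => True) τ) :
    ∀ᶠ t in (q : Filter ℕ), Det q F j n v (fun _ => True) (t :: τ) := by
  rcases QBar.cases h with h | h
  · exact Filter.Eventually.of_forall (fun t => Bar.now ⟨F.val_mono h.1 t, trivial⟩)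
  · exact h

theorem not_PD_persist {F : Fnl} {j n : ℕ} {τ : List ℕ} (h : ¬ PD q F j n τ) :
    ∀ᶠ t in (q : Filter ℕ), ¬ PD q F j n (t :: τ) := by
  rw [Ultrafilter.eventually_not]
  intro h1
  exact h (QBar.of_ev h1)

theorem not_PD_now {F : Fnl} {j n : ℕ} {τ : List ℕ} (h : ¬ PD q F j n τ) {x : ℕ} (hx : n < x) :
    ¬ F.Pr τ j x := by
  intro h1
  exact h (Bar.now (F.val_isSome hx h1))

end Pool.Agent.helper44.IPT
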